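import Pool.Agent.Helper4.CD.St

set_option autoImplicit false

namespace Pool.Agent.Helper33.CD

open Pool.Agent.Helper4.CD
open Module

private lemma tel {K : Type} [Field K] {V : Type} [AddCommGroup V] [Module K V] {κ : Type}
    (n : ℕ) (g : ℕ → V) (Λ : ℕ → ((κ → K) →ₗ[K] V)) (φ : ℕ → Dual K (κ → K)) (h0 : Λ 0 = 0)
    (hs : ∀ i < n, ∀ ρ, Λ (i + 1) ρ = Λ i ρ + φ i ρ • g i) (ρ : κ → K) :
    ∀ i ≤ n, Λ i ρ = ∑ j ∈ Finset.range i, φ j ρ • g j := by
  intro i
  induction i with
  | zero => intro _; simp [h0]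
  | succ i ih =>
    intro hi
    rw [hs i (by omega), ih (by omega), Finset.sum_range_succ]

theorem hGEN (h1 : StLAM) : StGEN := by
  classical
  intro K _ _ _ V _ _ _ κ _ c B θ N hc
  obtain ⟨S, hS⟩ := h1 K V κ c N hc
  let R : V →ₗ[K] (κ → K) := LinearMap.pi (fun k => if k ∈ B then c k else 0)
  have hRin : ∀ x k, k ∈ B → R x k = c k x := by
    intro x k hk
    simp [R, hk]
  have hRout : ∀ x k, k ∉ B → R x k = 0 := by
    intro x k hk
    simp [R, hk]
  refine ⟨S.image (fun Λ => (Λ ∘ₗ R - LinearMap.id, Λ θ)), ?_⟩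
  intro u w r hr1 hr2 hw n hn z g h hT hz0 hzn
  obtain ⟨Λ, φ, hΛS, hΛ0, hΛs, hφ, hend⟩ := hS n hn r z g h hT
  have hρ : (fun k => r k - c k (z 0)) = R w + θ := by
    funext k
    by_cases hk : k ∈ B
    · simp only [Pi.add_apply, hRin w k hk, hz0, hr1 k hk]
      ring
    · simp only [Pi.add_apply, hRout w k hk, hz0, hr2 k hk]
      ring
  rw [hρ, hz0, hzn, map_add] at hend
  have hend' : w = Λ n (R w) + Λ n θ := add_left_cancel hend
  have hid : Λ n ∘ₗ R - LinearMap.id = 0 := by
    by_contra hne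
    have hmem : (Λ n ∘ₗ R - LinearMap.id, Λ n θ) ∈
        S.image (fun Λ => (Λ ∘ₗ R - LinearMap.id, Λ θ)) :=
      Finset.mem_image.mpr ⟨Λ n, hΛS, rfl⟩
    apply hw _ hmem hne
    have e : Λ n (R w) - w + Λ n θ = 0 := by
      rw [sub_add_eq_add_sub, ← hend', sub_self]
    exact e
  have hΛR : ∀ x, Λ n (R x) = x := by
    intro x
    have := LinearMap.congr_fun hid x
    simp only [LinearMap.sub_apply, LinearMap.comp_apply, LinearMap.id_apply,
      LinearMap.zero_apply] at this
    exact sub_eq_zero.mp this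
  have htel := fun x => tel n g Λ φ hΛ0 hΛs (R x)
  have hspan : Submodule.span K (g '' {i | i < n}) = ⊤ := by
    rw [eq_top_iff]
    intro x _
    rw [← hΛR x, htel x n le_rfl]
    refine Submodule.sum_mem _ (fun j hj => Submodule.smul_mem _ _ (Submodule.subset_span ?_))
    exact ⟨j, Finset.mem_range.mp hj, rfl⟩
  refine ⟨hspan, ?_⟩
  intro hfin i l hil hl
  -- linear independence
  have hli : LinearIndependent K (fun j : Fin n => g j) := by
    apply linearIndependent_of_top_le_span_of_card_eq_finrank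
    · rw [← hspan]
      apply Submodule.span_mono
      rintro _ ⟨j, hj, rfl⟩
      exact ⟨⟨j, hj⟩, rfl⟩
    · rw [Fintype.card_fin, hfin]
  have hcoef : ∀ l < n, ∀ j < n, φ j (R (g l)) = if j = l then 1 else 0 := by
    intro l hl j hj
    have hz : ∑ m : Fin n, (φ m (R (g l)) - if (m : ℕ) = l then 1 else 0) • g m = 0 := by
      have e1 : ∑ m : Fin n, (φ m (R (g l))) • g m = g l := by
        rw [Fin.sum_univ_eq_sum_range (fun m => (φ m (R (g l))) • g m) n, ← htel (g l) n le_rfl,
          hΛR]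
      have e2 : ∑ m : Fin n, (if (m : ℕ) = l then (1 : K) else 0) • g m = g l := by
        rw [Fin.sum_univ_eq_sum_range (fun m => (if m = l then (1 : K) else 0) • g m) n]
        rw [Finset.sum_eq_single l]
        · simp
        · intro b _ hb
          simp [hb]
        · intro hb
          exact absurd (Finset.mem_range.mpr hl) hb
      simp only [sub_smul, Finset.sum_sub_distrib]
      rw [e1, e2, sub_self]
    have := Fintype.linearIndependent_iff.mp hli _ hz ⟨j, hj⟩
    exact sub_eq_zero.mp this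
  have hΛi : ∀ l < n, ∀ i ≤ l, Λ i (R (g l)) = 0 := by
    intro l hl i hi
    rw [htel (g l) i (by omega)]
    apply Finset.sum_eq_zero
    intro j hj
    have hj' := Finset.mem_range.mp hj
    rw [hcoef l hl j (by omega), if_neg (by omega), zero_smul]
  have hin : i < n := by omega
  have hiB : h i ∈ B := by
    by_contra hnB
    have e := hφ i hin (R (g i))
    rw [hcoef i hin i hin, if_pos rfl, one_mul, hRout (g i) _ hnB, hΛi i hin i le_rfl, map_zero,
      sub_zero] at e
    exact absurd e (ne_of_lt (hT.neg i hin))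
  have e := hφ i hin (R (g l))
  rw [hcoef l hl i hin, if_neg (by omega), zero_mul, hRin (g l) _ hiB, hΛi l hl i (by omega),
    map_zero, sub_zero] at e
  exact e.symm

end Pool.Agent.Helper33.CD
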